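import Pool.Agent.Q216.SD.Defs

/-!
# Digraphs with given rational star dichromatic number
-/

set_option autoImplicit false

namespace Pool.Agent.Q216.SD

open Pool.Agent.NPC

/-- a nonempty finite acyclic set contains a sink -/
theorem exists_sink {V : Type} [Finite V] {A : V → V → Prop} {X : Set V} (hX : Acyclic A X)
    (hne : X.Nonempty) : ∃ s ∈ X, ∀ x ∈ X, ¬ A s x := by
  let r : V → V → Prop := Relation.TransGen fun a b => b ∈ X ∧ a ∈ X ∧ A b a
  have hirr : ∀ v, ¬ r v v := by
    intro v hv
    apply hX v
    have h1 : Relation.TransGen (Function.swap fun a b => b ∈ X ∧ a ∈ X ∧ A b a) v v :=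
      Relation.transGen_swap.2 hv
    exact h1
  have : Std.Irrefl r := ⟨hirr⟩
  have : IsTrans V r := ⟨fun _ _ _ => Relation.TransGen.trans⟩
  have hwf : WellFounded r := Finite.wellFounded_of_trans_of_irrefl r
  obtain ⟨s, hs, hmin⟩ := hwf.has_min X hne
  exact ⟨s, hs, fun x hx hA => hmin x hx (Relation.TransGen.single ⟨hs, hx, hA⟩)⟩

/-- the adjacency matrix of the circulant digraph `C(k,d)` -/
def circ (k d : ℕ) : List (List Bool) :=
  (List.range k).map fun i => (List.range k).map fun j => decide (d ≤ (j + (k - i)) % k)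

theorem circ_length (k d : ℕ) : (circ k d).length = k := by simp [circ]

theorem arc_circ {k d : ℕ} (hd : 1 ≤ d) (i j : Fin (circ k d).length) :
    Arc (circ k d) i j ↔ d ≤ (j.val + (k - i.val)) % k := by
  have hi : i.val < k := lt_of_lt_of_eq i.2 (circ_length k d)
  have hj : j.val < k := lt_of_lt_of_eq j.2 (circ_length k d)
  have h0 : ∀ (n : ℕ) (hn : n < (circ k d).length), (circ k d)[n] =
      (List.range k).map fun j => decide (d ≤ (j + (k - n)) % k) := by
    intro n hn
    simp [circ]
  have h1 : ((circ k d).get i).getD j.val false = decide (d ≤ (j.val + (k - i.val)) % k) := by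
    rw [List.get_eq_getElem, h0, List.getD_eq_getElem _ _ (by simpa using hj)]
    simp
  unfold Arc
  rw [h1, decide_eq_true_eq]
  constructor
  · exact fun h => h.2
  · intro h
    refine ⟨?_, h⟩
    rintro rfl
    have : i.val + (k - i.val) = k := by omega
    rw [this, Nat.mod_self] at h
    omega

/-- acyclic sets of the circulant digraph have at most `d` elements -/
theorem card_acyclic_le {k d : ℕ} (hd : 1 ≤ d) (X : Finset (Fin (circ k d).length))
    (hX : Acyclic (Arc (circ k d)) (X : Set (Fin (circ k d).length))) : X.card ≤ d := by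
  rcases X.eq_empty_or_nonempty with rfl | hne
  · simp
  · obtain ⟨s, hs, hsink⟩ := exists_sink hX (by simpa using hne)
    have hs' : s.val < k := lt_of_lt_of_eq s.2 (circ_length k d)
    have h1 : ∀ x ∈ X, (x.val + (k - s.val)) % k ∈ Finset.range d := by
      intro x hx
      have := hsink x hx
      rw [arc_circ hd] at this
      rw [Finset.mem_range]
      omega
    have h2 := Finset.card_le_card_of_injOn (fun x : Fin (circ k d).length =>
      (x.val + (k - s.val)) % k) h1 (by
        intro x _ y _ hxy
        simp only at hxy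
        have hx' : x.val < k := lt_of_lt_of_eq x.2 (circ_length k d)
        have hy' : y.val < k := lt_of_lt_of_eq y.2 (circ_length k d)
        apply Fin.ext
        have h3 : x.val + (k - s.val) ≡ y.val + (k - s.val) [MOD k] := hxy
        have h4 : x.val ≡ y.val [MOD k] := Nat.ModEq.add_right_cancel' _ h3
        exact Nat.ModEq.eq_of_lt_of_lt h4 hx' hy')
    simpa using h2

theorem mem_starSet_circ {k d : ℕ} (hd : 1 ≤ d) (hdk : d ≤ k) :
    ∃ c : Fin (circ k d).length → ZMod k, IsColouring (Arc (circ k d)) k d c := by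
  have hk : 0 < k := by omega
  have : NeZero k := ⟨hk.ne'⟩
  refine ⟨fun v => (v.val : ZMod k), fun i v hv => ?_⟩
  -- the position in the window
  let φ : Fin (circ k d).length → ℕ := fun v => ((v.val : ZMod k) - i).val
  have hstep : ∀ a b : Fin (circ k d).length,
      (∃ j : ℕ, j < d ∧ (a.val : ZMod k) = i + (j : ZMod k)) →
      (∃ j : ℕ, j < d ∧ (b.val : ZMod k) = i + (j : ZMod k)) →
      Arc (circ k d) a b → φ b < φ a := by
    rintro a b ⟨j, hj, ha⟩ ⟨j', hj', hb⟩ hab
    rw [arc_circ hd] at hab
    have ha' : φ a = j := by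
      simp only [φ]
      rw [ha, add_sub_cancel_left, ZMod.val_natCast, Nat.mod_eq_of_lt (by omega)]
    have hb' : φ b = j' := by
      simp only [φ]
      rw [hb, add_sub_cancel_left, ZMod.val_natCast, Nat.mod_eq_of_lt (by omega)]
    rw [ha', hb']
    by_contra hcon
    push Not at hcon
    have hak : a.val < k := lt_of_lt_of_eq a.2 (circ_length k d)
    have h1 : ((b.val + (k - a.val) : ℕ) : ZMod k) = ((j' - j : ℕ) : ZMod k) := by
      push_cast [Nat.cast_sub hak.le, Nat.cast_sub hcon]
      rw [ha, hb, ZMod.natCast_self]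
      ring
    have h2 : (b.val + (k - a.val)) % k = (j' - j) % k := by
      have := congrArg ZMod.val h1
      rwa [ZMod.val_natCast, ZMod.val_natCast] at this
    rw [h2, Nat.mod_eq_of_lt (by omega)] at hab
    omega
  have htr : ∀ a b, Relation.TransGen (fun a b => a ∈ {v : Fin (circ k d).length |
      ∃ j : ℕ, j < d ∧ (v.val : ZMod k) = i + (j : ZMod k)} ∧ b ∈ {v : Fin (circ k d).length |
      ∃ j : ℕ, j < d ∧ (v.val : ZMod k) = i + (j : ZMod k)} ∧ Arc (circ k d) a b) a b →
      φ b < φ a := by
    intro a b hab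
    induction hab with
    | single h => exact hstep _ _ h.1 h.2.1 h.2.2
    | tail _ h ih => exact lt_trans (hstep _ _ h.1 h.2.1 h.2.2) ih
  exact lt_irrefl _ (htr v v hv)

theorem le_of_colouring {k d : ℕ} (hd : 1 ≤ d) {k' d' : ℕ} (hd' : 1 ≤ d') (hdk' : d' ≤ k')
    (c : Fin (circ k d).length → ZMod k') (hc : IsColouring (Arc (circ k d)) k' d' c) :
    d' * k ≤ k' * d := by
  classical
  have hk' : 0 < k' := by omega
  have : NeZero k' := ⟨hk'.ne'⟩
  let W : ZMod k' → Finset (Fin (circ k d).length) := fun i =>
    Finset.univ.filter fun v => ∃ j : ℕ, j < d' ∧ c v = i + (j : ZMod k')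
  have h1 : ∀ i, (W i).card ≤ d := by
    intro i
    apply card_acyclic_le hd
    have := hc i
    have e : ((W i : Finset _) : Set (Fin (circ k d).length)) =
        {v | ∃ j : ℕ, j < d' ∧ c v = i + (j : ZMod k')} := by
      ext v
      simp [W]
    rw [e]
    exact this
  have h2 : ∑ i, (W i).card ≤ k' * d := by
    calc ∑ i, (W i).card ≤ ∑ _i : ZMod k', d := Finset.sum_le_sum fun i _ => h1 i
      _ = k' * d := by rw [Finset.sum_const, Finset.card_univ, ZMod.card, smul_eq_mul]
  have h3 : ∑ i, (W i).card = ∑ v : Fin (circ k d).length,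
      (Finset.univ.filter fun i : ZMod k' => ∃ j : ℕ, j < d' ∧ c v = i + (j : ZMod k')).card := by
    simp only [W, Finset.card_filter]
    exact Finset.sum_comm
  have h4 : ∀ v : Fin (circ k d).length, d' ≤
      (Finset.univ.filter fun i : ZMod k' => ∃ j : ℕ, j < d' ∧ c v = i + (j : ZMod k')).card := by
    intro v
    have := Finset.card_le_card_of_injOn (s := Finset.range d')
      (t := Finset.univ.filter fun i : ZMod k' => ∃ j : ℕ, j < d' ∧ c v = i + (j : ZMod k'))
      (fun j => c v - (j : ZMod k')) (by
        intro j hj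
        simp only [Finset.coe_filter, Finset.mem_univ, true_and, Set.mem_ofPred_eq]
        exact ⟨j, Finset.mem_range.1 hj, by ring⟩) (by
        intro a ha b hb hab
        simp only [sub_right_inj] at hab
        have := congrArg ZMod.val hab
        rw [ZMod.val_natCast, ZMod.val_natCast] at this
        have ha' : a < d' := Finset.mem_range.1 ha
        have hb' : b < d' := Finset.mem_range.1 hb
        rwa [Nat.mod_eq_of_lt (by omega), Nat.mod_eq_of_lt (by omega)] at this)
    simpa using this
  calc d' * k = ∑ _v : Fin (circ k d).length, d' := by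
        rw [Finset.sum_const, Finset.card_univ, Fintype.card_fin, circ_length, smul_eq_mul,
          mul_comm]
    _ ≤ _ := Finset.sum_le_sum fun v _ => h4 v
    _ = ∑ i, (W i).card := h3.symm
    _ ≤ k' * d := h2

/-- The star dichromatic number of the circulant digraph is `k / d`. -/
theorem star_circ {k d : ℕ} (hd : 1 ≤ d) (hdk : d ≤ k) :
    starDichromatic (Arc (circ k d)) = (k : ℝ) / d := by
  unfold starDichromatic
  apply le_antisymm
  · refine csInf_le ⟨0, ?_⟩ ⟨k, d, hd, hdk, mem_starSet_circ hd hdk, rfl⟩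
    rintro _ ⟨k', d', _, _, _, rfl⟩
    positivity
  · refine le_csInf ⟨_, k, d, hd, hdk, mem_starSet_circ hd hdk, rfl⟩ ?_
    rintro _ ⟨k', d', hd', hdk', ⟨c, hc⟩, rfl⟩
    have h := le_of_colouring hd hd' hdk' c hc
    have h' : (d' : ℝ) * k ≤ k' * d := by exact_mod_cast h
    have hd0 : (0 : ℝ) < d := by exact_mod_cast (by omega : 0 < d)
    have hd0' : (0 : ℝ) < d' := by exact_mod_cast (by omega : 0 < d')
    rw [div_le_div_iff₀ hd0 hd0']
    linarith

/-- Different real numbers give different decision problems. -/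
theorem star_injOn {p q : ℝ} (hp : 1 < p) (hpq : p < q) :
    ∃ M : List (List Bool), ¬ STAR p M ∧ STAR q M := by
  obtain ⟨r, h1, h2⟩ := exists_rat_btwn hpq
  have hr : (1 : ℝ) < r := hp.trans h1
  have hr' : (1 : ℚ) < r := by exact_mod_cast hr
  have hnum : 0 < r.num := Rat.num_pos.2 (by linarith)
  have hden : 0 < r.den := r.den_pos
  have hcast : ((r.num.toNat : ℕ) : ℚ) / (r.den : ℚ) = r := by
    have h3 : ((r.num.toNat : ℕ) : ℚ) = (r.num : ℚ) := by
      have : ((r.num.toNat : ℕ) : ℤ) = r.num := Int.toNat_of_nonneg hnum.le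
      exact_mod_cast this
    rw [h3, Rat.num_div_den]
  have hle : r.den ≤ r.num.toNat := by
    have hd : (0 : ℚ) < r.den := by exact_mod_cast hden
    rw [← hcast, lt_div_iff₀ hd, one_mul] at hr'
    have : r.den < r.num.toNat := by exact_mod_cast hr'
    exact this.le
  have h4 := star_circ hden hle
  have h5 : ((r.num.toNat : ℕ) : ℝ) / (r.den : ℝ) = (r : ℝ) := by
    have := congrArg (fun x : ℚ => (x : ℝ)) hcast
    simpa using this
  rw [h5] at h4
  refine ⟨circ r.num.toNat r.den, ?_, ?_⟩
  · unfold STAR
    rw [h4]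
    exact not_le.2 h1
  · unfold STAR
    rw [h4]
    exact h2.le

end Pool.Agent.Q216.SD
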