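import Pool.Agent.NPC.Classes

/-!
# The star dichromatic number: definitions
-/

set_option autoImplicit false

namespace Pool.Agent.Q216.SD

open Pool.Agent.NPC

/-- A set `X` of vertices of the digraph with arc relation `A` is acyclic: there is no directed
cycle (equivalently, no closed directed walk of positive length) inside `X`. -/
def Acyclic {V : Type} (A : V → V → Prop) (X : Set V) : Prop :=
  ∀ v, ¬ Relation.TransGen (fun a b => a ∈ X ∧ b ∈ X ∧ A a b) v v

/-- Acyclic `(k,d)`-colourings. -/
def IsColouring {V : Type} (A : V → V → Prop) (k d : ℕ) (c : V → ZMod k) : Prop :=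
  ∀ i : ZMod k, Acyclic A {v | ∃ j : ℕ, j < d ∧ c v = i + (j : ZMod k)}

/-- The star dichromatic number. -/
noncomputable def starDichromatic {V : Type} (A : V → V → Prop) : ℝ :=
  sInf {r : ℝ | ∃ k d : ℕ, 1 ≤ d ∧ d ≤ k ∧ (∃ c : V → ZMod k, IsColouring A k d c) ∧
    r = (k : ℝ) / d}

/-- The loopless digraph with a given adjacency matrix (list of rows). -/
def Arc (M : List (List Bool)) (i j : Fin M.length) : Prop :=
  i ≠ j ∧ (M.get i).getD j.val false = true

/-- The decision problem `STAR_p`, for digraphs given by adjacency matrices. -/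
def STAR (p : ℝ) (M : List (List Bool)) : Prop := starDichromatic (Arc M) ≤ p

end Pool.Agent.Q216.SD
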