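import Pool.Agent.Q216.SD.Circ
import Pool.Agent.H550R2.Iso.Raw

/-!
# Countability
-/

set_option autoImplicit false

namespace Pool.Agent.Q216.SD

open Pool.Agent.NPC

theorem lang_injOn : Set.InjOn (fun p : ℝ => lang (STAR p)) (Set.Ioi 1) := by
  have key : ∀ p q : ℝ, 1 < p → p < q → lang (STAR p) ≠ lang (STAR q) := by
    intro p q hp hpq h
    obtain ⟨M, h1, h2⟩ := star_injOn hp hpq
    have h3 : bits M ∈ lang (STAR q) := ⟨M, rfl, h2⟩
    rw [← h] at h3
    obtain ⟨M', h4, h5⟩ := h3
    rw [bits_injective h4] at h5
    exact h1 h5
  intro p hp q hq h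
  rcases lt_trichotomy p q with h1 | h1 | h1
  · exact absurd h (key p q hp h1)
  · exact h1
  · exact absurd h.symm (key q p hq h1)

/-- For every countable class of languages, `STAR_p` is in the class for at most countably many
`p`. -/
theorem countable_of (C : Set (Set (List Bool))) (hC : C.Countable) :
    {p : ℝ | 1 < p ∧ lang (STAR p) ∈ C}.Countable := by
  refine Set.MapsTo.countable_of_injOn (f := fun p : ℝ => lang (STAR p)) (t := C)
    (fun p hp => hp.2) (fun p hp q hq h => lang_injOn hp.1 hq.1 h) hC

theorem countable_NP : {L : Set (List Bool) | InNP L}.Countable := by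
  have h1 := PIso.countable_polyTime
  have : Countable (Polynomial ℕ) := Cardinal.mk_le_aleph0_iff.1
    (Polynomial.cardinalMk_le_max.trans (by simp))
  have h2 : ({f : List Bool → List Bool | PolyTime f} ×ˢ (Set.univ : Set (Polynomial ℕ))).Countable :=
    h1.prod Set.countable_univ
  refine (h2.image fun q : (List Bool → List Bool) × Polynomial ℕ =>
    {x : List Bool | ∃ w : List Bool, w.length ≤ q.2.eval x.length ∧
      q.1 (pairBits x w) = [true]}).mono ?_
  rintro L ⟨V, p, hV, h⟩
  refine ⟨(V, p), ⟨hV, trivial⟩, ?_⟩
  ext x
  exact (h x).symm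

theorem countable_decidable :
    {L : Set (List Bool) | ComputablePred fun x => x ∈ L}.Countable := by
  classical
  let F : Set (List Bool) → ℕ → ℕ := fun L n =>
    ((Encodable.decode n : Option (List Bool)).map fun x => (decide (x ∈ L)).toNat).getD 0
  have hF : ∀ L L' : Set (List Bool), F L = F L' → L = L' := by
    intro L L' h
    ext x
    have h1 := congrFun h (Encodable.encode x)
    simp only [F, Encodable.encodek, Option.map_some, Option.getD_some] at h1
    by_cases hx : x ∈ L <;> by_cases hx' : x ∈ L' <;> simp_all
  have hcomp : ∀ L : Set (List Bool), ComputablePred (fun x => x ∈ L) → Computable (F L) := by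
    intro L hL''
    obtain ⟨w, hL'⟩ := hL''
    have hL : Computable fun x : List Bool => @decide (x ∈ L) (Classical.propDecidable (x ∈ L)) :=
      hL'.of_eq fun x => by congr
    clear hL'
    clear w
    have h1 : Computable fun x : List Bool => (decide (x ∈ L)).toNat := by
      refine (Computable.cond hL (Computable.const 1) (Computable.const 0)).of_eq fun x => ?_
      by_cases hx : x ∈ L <;> simp [hx]
    have h2 : Computable fun n : ℕ => (Encodable.decode n : Option (List Bool)).map
        fun x => (decide (x ∈ L)).toNat :=
      Computable.option_map Computable.decode (h1.comp Computable.snd).to₂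
    exact Computable.option_getD h2 (Computable.const 0)
  have hc : {f : ℕ → ℕ | Computable f}.Countable := by
    have : Countable {f : ℕ → ℕ // Computable f} := inferInstance
    exact this.to_set
  exact Set.MapsTo.countable_of_injOn (f := F) (t := {f : ℕ → ℕ | Computable f})
    (fun L hL => hcomp L hL) (fun L _ L' _ h => hF L L' h) hc

end Pool.Agent.Q216.SD
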